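import Mathlib

set_option autoImplicit false

/-!
# Unit circular arcs: if `L - 1` unit arcs can be added without raising the max load `L`,
then `L` colours suffice
-/

namespace Pool.Agent.Results.MP_7d4b8e_co.AddingArcs

/-- The unit arc of the circle `ℝ / lam ℤ` starting at `x`: the image of `[x, x + 1)`. -/
def arc {lam : ℝ} (x : AddCircle lam) : Set (AddCircle lam) :=
  {y | ∃ t : ℝ, 0 ≤ t ∧ t < 1 ∧ y = x + (t : AddCircle lam)}

/-- The load at the point `p` of the family of unit arcs with starting points `a i`: the number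
of members of the family that contain `p`. -/
noncomputable def load {lam : ℝ} {ι : Type} (a : ι → AddCircle lam) (p : AddCircle lam) : ℕ :=
  {i | p ∈ arc (a i)}.ncard

/-- The max load of a family of unit arcs. -/
noncomputable def maxLoad {lam : ℝ} {ι : Type} (a : ι → AddCircle lam) : ℕ :=
  ⨆ p : AddCircle lam, load a p

/-- The family of unit arcs with starting points `a i` has a proper colouring with `l` colours:
two different members that intersect get different colours. -/
def Colourable {lam : ℝ} {ι : Type} (a : ι → AddCircle lam) (l : ℕ) : Prop :=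
  ∃ c : ι → Fin l, ∀ i j, i ≠ j → (arc (a i) ∩ arc (a j)).Nonempty → c i ≠ c j

lemma load_le_maxLoad {lam : ℝ} {ι : Type} [Finite ι] (a : ι → AddCircle lam)
    (p : AddCircle lam) : load a p ≤ maxLoad a := by
  refine le_ciSup (f := fun p => load a p) ⟨Nat.card ι, ?_⟩ p
  rintro _ ⟨q, rfl⟩
  exact Set.ncard_le_card _

/-- Two unit arcs whose starting points are at distance between `1` and `lam - 1` are disjoint. -/
lemma disjoint_arcs {lam : ℝ} {x y : ℝ} (h1 : 1 ≤ y - x) (h2 : y - x ≤ lam - 1) :
    ¬ (arc (x : AddCircle lam) ∩ arc (y : AddCircle lam)).Nonempty := by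
  rintro ⟨z, ⟨s, hs0, hs1, hs⟩, ⟨t, ht0, ht1, ht⟩⟩
  have h : ((x + s - (y + t) : ℝ) : AddCircle lam) = 0 := by
    rw [AddCircle.coe_sub, AddCircle.coe_add, AddCircle.coe_add, ← hs, ← ht, sub_self]
  obtain ⟨n, hn⟩ := (AddCircle.coe_eq_zero_iff lam).mp h
  rw [zsmul_eq_mul] at hn
  have hlam : 0 < lam := by linarith
  have hlt : (n : ℝ) * lam < 0 := by rw [hn]; linarith
  have hgt : -lam < (n : ℝ) * lam := by rw [hn]; linarith
  have hn0 : (n : ℝ) < 0 := by
    by_contra hge
    push Not at hge
    have := mul_nonneg hge hlam.le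
    linarith
  have hn1 : (-1 : ℝ) < n := by
    by_contra hge
    push Not at hge
    have := mul_le_mul_of_nonneg_right hge hlam.le
    linarith
  have a1 : n < 0 := by exact_mod_cast hn0
  have a2 : -1 < n := by exact_mod_cast hn1
  omega

/-- The point `y` lies on the arc starting at `x` if `0 ≤ y - x < 1`. -/
lemma mem_arc {lam : ℝ} {x y : ℝ} (h1 : 0 ≤ y - x) (h2 : y - x < 1) :
    (y : AddCircle lam) ∈ arc (x : AddCircle lam) :=
  ⟨y - x, h1, h2, by rw [← AddCircle.coe_add]; congr 1; ring⟩

lemma mem_arc' {lam : ℝ} {x y : ℝ} (h1 : 0 ≤ y + lam - x) (h2 : y + lam - x < 1) :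
    (y : AddCircle lam) ∈ arc (x : AddCircle lam) :=
  ⟨y + lam - x, h1, h2, by
    rw [← AddCircle.coe_add, show x + (y + lam - x) = y + lam by ring, AddCircle.coe_add,
      AddCircle.coe_period, add_zero]⟩

/-- The case in which the number of arcs is a multiple of a bound `L` for the load. -/
lemma core {lam : ℝ} (hlam : 2 ≤ lam) {N L : ℕ} (hL : 0 < L) (hdvd : L ∣ N)
    (x : Fin N → AddCircle lam) (hload : ∀ p, load x p ≤ L) : Colourable x L := by
  haveI : Fact (0 < lam) := ⟨by linarith⟩
  choose r hr hrx using fun i => AddCircle.eq_coe_Ico (x i)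
  let σ : Equiv.Perm (Fin N) := Tuple.sort r
  have hmono : Monotone (r ∘ σ) := Tuple.monotone_sort r
  let y : Fin N → ℝ := r ∘ σ
  have hy0 : ∀ k, 0 ≤ y k := fun k => (hr (σ k)).1
  have hy1 : ∀ k, y k < lam := fun k => (hr (σ k)).2
  have hyx : ∀ k, ((y k : ℝ) : AddCircle lam) = x (σ k) := fun k => hrx (σ k)
  -- a set of positions all of whose arcs contain `p` has at most `L` elements
  have hcount : ∀ (S : Finset (Fin N)) (p : AddCircle lam),
      (∀ k ∈ S, p ∈ arc ((y k : ℝ) : AddCircle lam)) → S.card ≤ L := by
    intro S p hS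
    refine le_trans ?_ (hload p)
    have hsub : σ '' (S : Set (Fin N)) ⊆ {i | p ∈ arc (x i)} := by
      rintro _ ⟨k, hk, rfl⟩
      show p ∈ arc (x (σ k))
      rw [← hyx k]
      exact hS k hk
    calc S.card = (σ '' (S : Set (Fin N))).ncard := by
          rw [Set.ncard_image_of_injective _ σ.injective, Set.ncard_coe_finset]
      _ ≤ _ := Set.ncard_le_ncard hsub (Set.toFinite _)
  have key : ∀ u v : Fin N, u < v → (u : ℕ) % L = (v : ℕ) % L →
      ¬ (arc ((y u : ℝ) : AddCircle lam) ∩ arc ((y v : ℝ) : AddCircle lam)).Nonempty := by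
    intro u v huv hmod
    have huv' : (u : ℕ) < v := huv
    have hv := v.2
    -- the difference of the positions is a positive multiple of `L`
    have hd : L ∣ (v : ℕ) - u := (Nat.modEq_iff_dvd' huv'.le).mp hmod
    have hd1 : L ≤ (v : ℕ) - u := Nat.le_of_dvd (by omega) hd
    have hd2 : L ≤ N - ((v : ℕ) - u) := Nat.le_of_dvd (by omega) (Nat.dvd_sub hdvd hd)
    apply disjoint_arcs
    · by_contra hlt
      push Not at hlt
      have h := hcount (Finset.Icc u v) ((y v : ℝ) : AddCircle lam) (by
        intro k hk
        rw [Finset.mem_Icc] at hk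
        have h1 : y u ≤ y k := hmono hk.1
        have h2 : y k ≤ y v := hmono hk.2
        exact mem_arc (by linarith) (by linarith))
      rw [Fin.card_Icc] at h
      omega
    · by_contra hlt
      push Not at hlt
      have h := hcount (Finset.univ \ Finset.Ioo u v) ((y u : ℝ) : AddCircle lam) (by
        intro k hk
        simp only [Finset.mem_sdiff, Finset.mem_univ, true_and, Finset.mem_Ioo, not_and, not_lt]
          at hk
        rcases lt_or_ge u k with huk | hku
        · have h1 : y v ≤ y k := hmono (hk huk)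
          have h2 := hy1 k
          have h3 := hy0 u
          exact mem_arc' (by linarith) (by linarith)
        · have h1 : y k ≤ y u := hmono hku
          have h2 := hy0 k
          have h3 := hy1 v
          exact mem_arc (by linarith) (by linarith))
      rw [Finset.card_sdiff_of_subset (Finset.subset_univ _), Finset.card_univ, Fintype.card_fin,
        Fin.card_Ioo] at h
      omega
  refine ⟨fun j => ⟨(σ.symm j : ℕ) % L, Nat.mod_lt _ hL⟩, ?_⟩
  intro i j hij hne heq
  have hmod : (σ.symm i : ℕ) % L = (σ.symm j : ℕ) % L := congrArg Fin.val heq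
  have hij' : σ.symm i ≠ σ.symm j := fun h => hij (σ.symm.injective h)
  have hi : ((y (σ.symm i) : ℝ) : AddCircle lam) = x i := by rw [hyx, Equiv.apply_symm_apply]
  have hj : ((y (σ.symm j) : ℝ) : AddCircle lam) = x j := by rw [hyx, Equiv.apply_symm_apply]
  rcases lt_or_gt_of_ne hij' with h | h
  · refine key _ _ h hmod ?_
    rw [hi, hj]; exact hne
  · refine key _ _ h hmod.symm ?_
    rw [hi, hj, Set.inter_comm]; exact hne

/-- **Theorem.** Let `lam ≥ 2` and let `a` be a finite family of unit arcs on the circle of
circumference `lam`, with max load `L`.  If there is a further family `b` of at least `L - 1` unit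
arcs (not necessarily pairwise disjoint) whose addition to `a` keeps the max load equal to `L`,
then `a` has a proper colouring with `L` colours. -/
theorem result : ∀ (lam : ℝ), 2 ≤ lam → ∀ (ι κ : Type) [Finite ι] [Finite κ]
    (a : ι → AddCircle lam) (b : κ → AddCircle lam) (L : ℕ),
    maxLoad a = L → L ≤ Nat.card κ + 1 → maxLoad (Sum.elim a b) = L → Colourable a L := by
  intro lam hlam ι κ _ _ a b L hLa hk hL
  haveI := Fintype.ofFinite ι
  haveI := Fintype.ofFinite κ
  rcases Nat.eq_zero_or_pos L with h0 | hpos
  · -- no arcs at all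
    have hemp : IsEmpty ι := by
      refine ⟨fun i => ?_⟩
      have h := load_le_maxLoad a (a i)
      rw [hLa, h0] at h
      have h1 : 0 < load a (a i) := by
        rw [load, Set.ncard_pos (Set.toFinite _)]
        exact ⟨i, 0, le_rfl, zero_lt_one, by simp⟩
      omega
    exact ⟨fun i => (hemp.false i).elim, fun i => (hemp.false i).elim⟩
  · -- complete the number of arcs to a multiple of `L`
    obtain ⟨r, hr, hdvd⟩ : ∃ r, r ≤ L - 1 ∧ L ∣ Fintype.card ι + r := by
      refine ⟨(L - Fintype.card ι % L) % L, Nat.le_sub_one_of_lt (Nat.mod_lt _ hpos), ?_⟩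
      rw [Nat.dvd_iff_mod_eq_zero, Nat.add_mod, Nat.mod_mod, ← Nat.add_mod]
      have h1 := Nat.mod_lt (Fintype.card ι) hpos
      rw [Nat.add_mod, Nat.add_mod_mod]
      rw [show Fintype.card ι % L + (L - Fintype.card ι % L) = L by omega, Nat.mod_self]
    have hrk : Fintype.card (Fin r) ≤ Fintype.card κ := by
      rw [Nat.card_eq_fintype_card] at hk
      rw [Fintype.card_fin]
      omega
    obtain ⟨f⟩ := Function.Embedding.nonempty_of_card_le hrk
    -- the enlarged family
    let e : ι ⊕ Fin r ≃ Fin (Fintype.card ι + r) :=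
      (Fintype.equivFin (ι ⊕ Fin r)).trans (finCongr (by simp))
    let g : ι ⊕ Fin r → ι ⊕ κ := Sum.map id f
    have hg : Function.Injective g := Function.Injective.sumMap Function.injective_id f.injective
    let x : Fin (Fintype.card ι + r) → AddCircle lam := fun k => Sum.elim a b (g (e.symm k))
    have hload : ∀ p, load x p ≤ L := by
      intro p
      refine le_trans ?_ ((load_le_maxLoad (Sum.elim a b) p).trans hL.le)
      have hinj : Function.Injective (fun k => g (e.symm k)) := hg.comp e.symm.injective
      unfold load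
      calc {i | p ∈ arc (x i)}.ncard
          = ((fun k => g (e.symm k)) '' {i | p ∈ arc (x i)}).ncard :=
            (Set.ncard_image_of_injective _ hinj).symm
        _ ≤ _ := Set.ncard_le_ncard (by rintro _ ⟨k, hk, rfl⟩; exact hk) (Set.toFinite _)
    obtain ⟨c, hc⟩ := core hlam hpos hdvd x hload
    refine ⟨fun i => c (e (Sum.inl i)), ?_⟩
    intro i j hij hne
    refine hc _ _ (fun h => hij (Sum.inl_injective (e.injective h))) ?_
    have hx : ∀ i, x (e (Sum.inl i)) = a i := by
      intro i
      simp [x, g]
    rw [hx, hx]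
    exact hne

end Pool.Agent.Results.MP_7d4b8e_co.AddingArcs
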